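import Pool.Agent.MEV.OMG
import Pool.Agent.MEY.DDO

/-!
# MEV: the preimage of the region
-/

set_option autoImplicit false

open Complex Filter Topology Set MeasureTheory
open Pool.Agent.MEX (LI)

namespace Pool.Agent.MEV

open Pool.Agent.MEY.DDO_ in
theorem ddo {W : Set ℂ} (hΩ : Rgn W) : ∀ n : ℕ, 2 ≤ n → IsOpen (DW n W) ∧
    IsPreconnected (DW n W) ∧ Metric.ball 0 1 ⊆ DW n W ∧
    (∀ μ : ℂ, exp (μ / ((n - 1 : ℕ) : ℂ)) ∈ DW n W ↔ μ ∈ W) ∧
    (∀ w ∈ DW n W, w ≠ 0 → ∃ μ ∈ W, w = exp (μ / ((n - 1 : ℕ) : ℂ))) ∧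
    ∀ w ζ : ℂ, ζ ^ (n - 1) = 1 → (ζ * w ∈ DW n W ↔ w ∈ DW n W) := by
  intro n hn
  have hLI := hΩ.li
  have hper := hΩ.per
  have hm1 : 1 ≤ n - 1 := by omega
  have hm0 : ((n - 1 : ℕ) : ℂ) ≠ 0 := by
    exact_mod_cast (show n - 1 ≠ 0 by omega)
  have hball : Metric.ball (0 : ℂ) 1 ⊆ DW n W := by
    intro w hw
    rcases eq_or_ne w 0 with h0 | h0
    · exact Or.inl h0
    · refine Or.inr (hΩ.hp _ ?_)
      have h1 : ‖w‖ < 1 := by simpa using hw
      have h2 : Real.log ‖w‖ < 0 := Real.log_neg (norm_pos_iff.2 h0) h1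
      have h3 : (((n - 1 : ℕ) : ℂ) * log w).re = ((n - 1 : ℕ) : ℝ) * Real.log ‖w‖ := by
        rw [← ofReal_natCast, re_ofReal_mul, log_re]
      rw [h3]
      have h4 : (0 : ℝ) < ((n - 1 : ℕ) : ℝ) := by exact_mod_cast hm1
      exact mul_neg_of_pos_of_neg h4 h2
  have hexp : ∀ μ : ℂ, exp (μ / ((n - 1 : ℕ) : ℂ)) ∈ DW n W ↔ μ ∈ W := by
    intro μ
    refine mem_iff hper (exp_ne_zero _) ?_
    rw [← exp_nat_mul]
    congr 1
    field_simp
  have hlog : ∀ w ∈ DW n W, w ≠ 0 → ∃ μ ∈ W, w = exp (μ / ((n - 1 : ℕ) : ℂ)) := by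
    intro w hw h0
    rcases hw with hw | hw
    · exact absurd hw h0
    · refine ⟨_, hw, ?_⟩
      rw [mul_div_cancel_left₀ _ hm0, exp_log h0]
  refine ⟨?_, ?_, hball, hexp, hlog, ?_⟩
  · rw [isOpen_iff_mem_nhds]
    intro w hw
    rcases eq_or_ne w 0 with h0 | h0
    · rw [h0]
      exact Filter.mem_of_superset (Metric.ball_mem_nhds _ one_pos) hball
    · have hmem : ((n - 1 : ℕ) : ℂ) * log w ∈ W := by
        rcases hw with hw | hw
        · exact absurd hw h0
        · exact hw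
      set φ : ℂ → ℂ := fun v => ((n - 1 : ℕ) : ℂ) * (log w + log (v / w)) with hφ
      have hc : ContinuousAt φ w := by
        have h1 : ContinuousAt (fun v : ℂ => log (v / w)) w := by
          refine ContinuousAt.clog ?_ ?_
          · exact continuousAt_id.div_const w
          · rw [div_self h0]
            exact one_mem_slitPlane
        exact continuousAt_const.mul (continuousAt_const.add h1)
      have hφw : φ w = ((n - 1 : ℕ) : ℂ) * log w := by
        rw [hφ]
        simp only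
        rw [div_self h0, log_one, add_zero]
      have h2 : ∀ᶠ v in 𝓝 w, φ v ∈ W := by
        apply hc
        rw [hφw]
        exact hLI.op.mem_nhds hmem
      have h3 : ∀ᶠ v in 𝓝 w, v ≠ 0 := isOpen_ne.mem_nhds h0
      filter_upwards [h2, h3] with v hv hv0
      refine (mem_iff hper hv0 ?_).2 hv
      rw [hφ]
      simp only
      rw [exp_nat_mul, exp_add, exp_log h0, exp_log (div_ne_zero hv0 h0), mul_div_cancel₀ _ h0]
  · have e : DW n W = Metric.ball 0 1 ∪ (fun μ : ℂ => exp (μ / ((n - 1 : ℕ) : ℂ))) '' W := by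
      ext w
      constructor
      · intro hw
        rcases eq_or_ne w 0 with h0 | h0
        · left
          rw [h0]
          exact Metric.mem_ball_self one_pos
        · right
          obtain ⟨μ, h1, h2⟩ := hlog w hw h0
          exact ⟨μ, h1, h2.symm⟩
      · rintro (hw | ⟨μ, h1, rfl⟩)
        · exact hball hw
        · exact (hexp μ).2 h1
    rw [e]
    refine IsPreconnected.union (exp (-1 / ((n - 1 : ℕ) : ℂ))) ?_ ?_
      (convex_ball (0 : ℂ) 1).isPreconnected ?_
    · rw [Metric.mem_ball, dist_zero_right, norm_exp, Real.exp_lt_one_iff]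
      rw [← ofReal_natCast, show (-1 : ℂ) / (((n - 1 : ℕ) : ℝ) : ℂ) =
        (((-1 : ℝ) / ((n - 1 : ℕ) : ℝ) : ℝ) : ℂ) by push_cast; rfl, ofReal_re]
      have h4 : (0 : ℝ) < ((n - 1 : ℕ) : ℝ) := by exact_mod_cast hm1
      exact div_neg_of_neg_of_pos (by norm_num) h4
    · refine ⟨-1, hΩ.hp _ ?_, rfl⟩
      norm_num
    · refine hLI.isPreconnected.image _ ?_
      exact (continuous_exp.comp (continuous_id.div_const _)).continuousOn
  · intro w ζ hζ
    have hζ0 : ζ ≠ 0 := by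
      rintro rfl
      rw [zero_pow (by omega)] at hζ
      exact zero_ne_one hζ
    rcases eq_or_ne w 0 with h0 | h0
    · rw [h0, mul_zero]
    · have h1 : exp (((n - 1 : ℕ) : ℂ) * log w) = (ζ * w) ^ (n - 1) := by
        rw [mul_pow, hζ, one_mul]
        exact exp_mul_log h0
      exact (mem_iff hper (mul_ne_zero hζ0 h0) h1).trans (mem_iff hper h0 (exp_mul_log h0)).symm

end Pool.Agent.MEV
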