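import Pool.Agent.MEV.OMG
import Pool.Agent.MEY.LUQ

/-!
# MEV: uniqueness of the sections of the multiplier
-/

set_option autoImplicit false

open Complex Filter Topology Set MeasureTheory
open Pool.Agent.Limb (F)
open Pool.Agent.PLim (Rho LocFix)
open Pool.Agent.MEY (Pt Sec)

namespace Pool.Agent.MEV

theorem luq {Ω : Set ℂ} (hG : GODw Ω) : ∀ (n k : ℕ) (W : Set ℂ) (ψ χ ψ' χ' : ℂ → ℂ)
    (μ0 : ℂ), 2 ≤ n → 1 ≤ k → IsPreconnected W → W ⊆ Ω → ContinuousOn ψ W →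
    ContinuousOn χ W → ContinuousOn ψ' W → ContinuousOn χ' W →
    (∀ μ ∈ W, Pt n k (ψ μ) (χ μ) (exp μ)) → (∀ μ ∈ W, Pt n k (ψ' μ) (χ' μ) (exp μ)) → μ0 ∈ W →
    ψ μ0 = ψ' μ0 → χ μ0 = χ' μ0 → EqOn ψ ψ' W ∧ EqOn χ χ' W := by
  intro n k W ψ χ ψ' χ' μ0 hn hk hW hWO hψ hχ hψ' hχ' hP hP' hμ0 h0 h0'
  have hpc : PreconnectedSpace W := isPreconnected_iff_preconnectedSpace.mp hW
  rw [continuousOn_iff_continuous_domRestrict] at hψ hχ hψ' hχ'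
  set S : Set W := {x | W.domRestrict ψ x = W.domRestrict ψ' x ∧
    W.domRestrict χ x = W.domRestrict χ' x} with hS
  have hcl : IsClosed S := (isClosed_eq hψ hψ').inter (isClosed_eq hχ hχ')
  have hop : IsOpen S := by
    rw [isOpen_iff_mem_nhds]
    intro x hx
    obtain ⟨hx1, hx2⟩ := hx
    have hx1' : ψ x.1 = ψ' x.1 := hx1
    have hx2' : χ x.1 = χ' x.1 := hx2
    obtain ⟨-, -, hR⟩ := hG n k (ψ x.1) (χ x.1) x.1 hn hk (hWO x.2) (hP x.1 x.2)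
    obtain ⟨ε, r, zf, -, -, hL, hd⟩ := hR 1 one_pos
    obtain ⟨V, hV, hVu⟩ := Pool.Agent.MEY.LUQ_.loc hL hd
    have hb : Metric.ball (χ x.1) r ∈ 𝓝 (χ x.1) := Metric.ball_mem_nhds _ hL.hr
    have a1 : ∀ᶠ y : W in 𝓝 x, ψ y.1 ∈ V := hψ.continuousAt.eventually_mem hV
    have a2 : ∀ᶠ y : W in 𝓝 x, ψ' y.1 ∈ V := by
      rw [hx1'] at hV
      exact hψ'.continuousAt.eventually_mem hV
    have a3 : ∀ᶠ y : W in 𝓝 x, χ y.1 ∈ Metric.ball (χ x.1) r := hχ.continuousAt.eventually_mem hb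
    have a4 : ∀ᶠ y : W in 𝓝 x, χ' y.1 ∈ Metric.ball (χ x.1) r := by
      have hb' : Metric.ball (χ x.1) r ∈ 𝓝 (χ' x.1) := by rw [← hx2']; exact hb
      exact hχ'.continuousAt.eventually_mem hb'
    filter_upwards [a1, a2, a3, a4] with y h1 h2 h3 h4
    have p1 := hP y.1 y.2
    have p2 := hP' y.1 y.2
    exact hVu _ h1 _ h2 _ h3 _ h4 p1.fix p2.fix (p1.mul.trans p2.mul.symm)
  have huniv : S = univ := IsClopen.eq_univ ⟨hcl, hop⟩ ⟨⟨μ0, hμ0⟩, h0, h0'⟩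
  have key : ∀ μ ∈ W, ψ μ = ψ' μ ∧ χ μ = χ' μ := by
    intro μ hμ
    have : (⟨μ, hμ⟩ : W) ∈ S := by rw [huniv]; trivial
    exact this
  exact ⟨fun μ hμ => (key μ hμ).1, fun μ hμ => (key μ hμ).2⟩

end Pool.Agent.MEV
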