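import Pool.Agent.MEV.LFT
import Pool.Agent.MEV.LUQ
import Pool.Agent.MEV.DDO
import Pool.Agent.MEY.CMP

/-!
# MEV: every cycle of exact period `k` with multiplier in the region is obtained
-/

set_option autoImplicit false

open Complex Filter Topology Set MeasureTheory
open Pool.Agent.Limb (F)
open Pool.Agent.PLim (Rho LocFix CNT_contI CNT_contR p_LOCZ)
open Pool.Agent.PLim.SECT_ (EE EE_compact)
open Pool.Agent.MEX (LI Exa)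
open Pool.Agent.MEX.SECX_ (EX EX_sub EX_compact EX_exact)
open Pool.Agent.MEY (Pt Sec T_LIC)

namespace Pool.Agent.MEV

open Pool.Agent.MEY.CMP_ in
theorem cmp (hLIC : T_LIC) {Ω : Set ℂ} (hR : Rgn Ω) (hG : GODw Ω) : ∀ (n k : ℕ) (c z μ : ℂ),
    2 ≤ n → 1 ≤ k → μ ∈ Ω → Pt n k c z (exp μ) → ∃ c0 : ℂ, Pt n k c0 0 0 ∧
    ∀ Ψ X : ℂ → ℂ, GlW n k Ω c0 Ψ X → ∃ v ∈ DW n Ω, v ≠ 0 ∧ Ψ v = c ∧
      ∃ j : ℕ, (F n c)^[j] (X v) = z := by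
  intro n k c z μ hn hk hμ hP
  have hΩ := hR.li
  obtain ⟨hDo, hDc, hDb, hDe, hDs, hDr⟩ := ddo hR n hn
  have hpre := li_preconnected hΩ
  obtain ⟨ψ, χ, hS, hψμ, hχμ⟩ := lft hLIC hR hG n k c z μ hn hk hμ hP
  -- a limit point for `Re → -∞`
  have hν : ∀ j : ℕ, μ - ((j : ℝ) : ℂ) ∈ Ω := fun j =>
    hΩ.left μ hμ j (Nat.cast_nonneg j)
  have hxE : ∀ j : ℕ, ((ψ (μ - ((j : ℝ) : ℂ)), χ (μ - ((j : ℝ) : ℂ))) : ℂ × ℂ) ∈ EX n k := by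
    intro j
    have h1 := hS.pt _ (hν j)
    exact subset_closure ⟨⟨h1.fix, hS.bd _ (hν j)⟩, h1.exa⟩
  obtain ⟨⟨c0, z0⟩, hx0, φ, hφ, hlim⟩ := (EX_compact hn hk).tendsto_subseq hxE
  have hexp : Tendsto (fun j : ℕ => exp (μ - (((φ j : ℕ) : ℝ) : ℂ))) atTop (𝓝 0) := by
    rw [tendsto_zero_iff_norm_tendsto_zero]
    have h1 : ∀ j : ℕ, ‖exp (μ - (((φ j : ℕ) : ℝ) : ℂ))‖ = Real.exp (μ.re - (φ j : ℕ)) := by
      intro j
      rw [norm_exp, sub_re, ofReal_re]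
    simp only [h1]
    have h2 : Tendsto (fun j : ℕ => μ.re - ((φ j : ℕ) : ℝ)) atTop atBot := by
      have h3 : Tendsto (fun j : ℕ => ((φ j : ℕ) : ℝ)) atTop atTop :=
        tendsto_natCast_atTop_atTop.comp hφ.tendsto_atTop
      have := tendsto_atBot_add_const_left atTop μ.re (tendsto_neg_atTop_atBot.comp h3)
      simpa [sub_eq_add_neg, Function.comp_def] using this
    exact Real.tendsto_exp_atBot.comp h2
  have hR0 : Rho n k c0 z0 = 0 := by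
    have h1 : Tendsto (fun j : ℕ => Rho n k (ψ (μ - (((φ j : ℕ) : ℝ) : ℂ)))
        (χ (μ - (((φ j : ℕ) : ℝ) : ℂ)))) atTop (𝓝 (Rho n k c0 z0)) :=
      ((CNT_contR n k).tendsto (c0, z0)).comp hlim
    have h2 : (fun j : ℕ => Rho n k (ψ (μ - (((φ j : ℕ) : ℝ) : ℂ)))
        (χ (μ - (((φ j : ℕ) : ℝ) : ℂ)))) = fun j : ℕ => exp (μ - (((φ j : ℕ) : ℝ) : ℂ)) := by
      funext j
      exact (hS.pt _ (hν (φ j))).mul
    rw [h2] at h1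
    exact tendsto_nhds_unique h1 hexp
  have hE0 := EX_sub hn hk hx0
  have hPt0 : Pt n k c0 z0 0 := ⟨hE0.1, EX_exact hn hk hx0 (by
    show Rho n k c0 z0 ≠ 1
    rw [hR0]; exact zero_ne_one), hR0⟩
  obtain ⟨i, hik, hi0⟩ := zero_mem hn hR0
  have hPt : Pt n k c0 0 0 := by
    have := pt_iter hk hPt0 hik.le
    rwa [hi0] at this
  refine ⟨c0, hPt, ?_⟩
  intro Ψ X hGl
  -- the local uniqueness at the centre
  obtain ⟨δ, r, zf, -, -, hL⟩ := p_LOCZ n k c0 0 1 hn one_pos hPt.fix (by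
    rw [hPt.mul]; exact zero_ne_one)
  have h0D : (0 : ℂ) ∈ DW n Ω := Or.inl rfl
  have hDn : DW n Ω ∈ 𝓝 (0 : ℂ) := hDo.mem_nhds h0D
  have hΨa : AnalyticAt ℂ Ψ 0 := hGl.dΨ.analyticAt hDn
  have hΨc : ContinuousAt Ψ 0 := hΨa.continuousAt
  have hXc : ContinuousAt X 0 := (hGl.dX.analyticAt hDn).continuousAt
  have hmap : map Ψ (𝓝 0) = 𝓝 (Ψ 0) :=
    hΨa.hasStrictDerivAt.map_nhds_eq (hGl.d 0 h0D)
  rw [hGl.zero] at hmap
  have hV : ∀ᶠ v in 𝓝 (0 : ℂ), v ∈ DW n Ω ∧ Ψ v ∈ Metric.ball c0 δ ∧ X v ∈ Metric.ball 0 r := by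
    refine Filter.Eventually.and hDn (Filter.Eventually.and ?_ ?_)
    · apply hΨc.eventually
      rw [hGl.zero]
      exact Metric.ball_mem_nhds _ hL.hδ
    · apply hXc.eventually
      rw [hGl.X0]
      exact Metric.ball_mem_nhds _ hL.hr
  have himg : Ψ '' {v | v ∈ DW n Ω ∧ Ψ v ∈ Metric.ball c0 δ ∧ X v ∈ Metric.ball 0 r} ∈ 𝓝 c0 := by
    rw [← hmap]
    exact image_mem_map hV
  have hfst : Tendsto (fun j : ℕ => ψ (μ - (((φ j : ℕ) : ℝ) : ℂ))) atTop (𝓝 c0) :=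
    (continuous_fst.tendsto (c0, z0)).comp hlim
  have hit : Tendsto (fun j : ℕ => (F n (ψ (μ - (((φ j : ℕ) : ℝ) : ℂ))))^[i]
      (χ (μ - (((φ j : ℕ) : ℝ) : ℂ)))) atTop (𝓝 0) := by
    have := ((CNT_contI n i).tendsto (c0, z0)).comp hlim
    simp only [hi0] at this
    exact this
  obtain ⟨j, hj1, hj2⟩ := ((hfst.eventually himg).and
    (hit.eventually (Metric.ball_mem_nhds (0 : ℂ) hL.hr))).exists
  obtain ⟨ν, hνd⟩ : ∃ ν : ℂ, ν = μ - (((φ j : ℕ) : ℝ) : ℂ) := ⟨_, rfl⟩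
  have hνΩ : ν ∈ Ω := by rw [hνd]; exact hν (φ j)
  rw [← hνd] at hj1 hj2
  obtain ⟨v, ⟨hvD, hvδ, hvr⟩, hvν⟩ := hj1
  have hPν : Pt n k (ψ ν) ((F n (ψ ν))^[i] (χ ν)) (exp ν) := pt_iter hk (hS.pt ν hνΩ) hik.le
  have hXv : X v = (F n (ψ ν))^[i] (χ ν) := by
    have h1 : X v = zf (Ψ v) := hL.uniq (Ψ v) hvδ (X v) hvr (hGl.pt v hvD).fix
    have h2 : (F n (ψ ν))^[i] (χ ν) = zf (ψ ν) := by
      rw [← hvν] at hj2 hPν ⊢
      exact hL.uniq (Ψ v) hvδ _ hj2 hPν.fix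
    rw [h1, h2, hvν]
  have hvpow : v ^ (n - 1) = exp ν := by
    rw [← (hGl.pt v hvD).mul, hXv, hvν, hPν.mul]
  have hn1 : ((n - 1 : ℕ) : ℂ) ≠ 0 := Nat.cast_ne_zero.2 (by omega)
  have hexpn : ∀ μ : ℂ, exp (μ / ((n - 1 : ℕ) : ℂ)) ^ (n - 1) = exp μ := by
    intro μ
    rw [← exp_nat_mul, mul_div_cancel₀ _ hn1]
  obtain ⟨ζ, hζ⟩ : ∃ ζ : ℂ, ζ = v / exp (ν / ((n - 1 : ℕ) : ℂ)) := ⟨_, rfl⟩
  have hζ1 : ζ ^ (n - 1) = 1 := by
    rw [hζ, div_pow, hexpn, hvpow, div_self (exp_ne_zero _)]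
  have hζv : ζ * exp (ν / ((n - 1 : ℕ) : ℂ)) = v := by
    rw [hζ, div_mul_cancel₀ _ (exp_ne_zero _)]
  have hζ0 : ζ ≠ 0 := by
    rintro rfl
    rw [zero_pow (by omega)] at hζ1
    exact zero_ne_one hζ1
  have hmapsto : MapsTo (fun μ : ℂ => ζ * exp (μ / ((n - 1 : ℕ) : ℂ))) (Ω) (DW n Ω) := by
    intro μ' hμ'
    exact (hDr _ ζ hζ1).2 ((hDe μ').2 hμ')
  have hcmap : ContinuousOn (fun μ : ℂ => ζ * exp (μ / ((n - 1 : ℕ) : ℂ))) (Ω) := by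
    apply Continuous.continuousOn
    fun_prop
  have key := luq hG n k (Ω) ψ (fun μ => (F n (ψ μ))^[i] (χ μ))
    (fun μ => Ψ (ζ * exp (μ / ((n - 1 : ℕ) : ℂ)))) (fun μ => X (ζ * exp (μ / ((n - 1 : ℕ) : ℂ))))
    ν hn hk hpre subset_rfl hS.dψ.continuousOn
    ((CNT_contI n i).comp_continuousOn (hS.dψ.continuousOn.prodMk hS.dχ.continuousOn))
    (hGl.dΨ.continuousOn.comp hcmap hmapsto) (hGl.dX.continuousOn.comp hcmap hmapsto)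
    (fun μ' hμ' => pt_iter hk (hS.pt μ' hμ') hik.le)
    (fun μ' hμ' => by
      have := hGl.pt _ (hmapsto hμ')
      rw [mul_pow, hζ1, one_mul, hexpn] at this
      exact this) hνΩ (by rw [hζv, hvν]) (by rw [hζv, hXv])
  have k1 := key.1 hμ
  have k2 := key.2 hμ
  simp only at k1 k2
  rw [hψμ] at k1 k2
  rw [hχμ] at k2
  refine ⟨ζ * exp (μ / ((n - 1 : ℕ) : ℂ)), hmapsto hμ, mul_ne_zero hζ0 (exp_ne_zero _), k1.symm,
    k - i, ?_⟩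
  rw [← k2, ← Function.iterate_add_apply, show k - i + i = k by omega]
  exact hP.fix

end Pool.Agent.MEV
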