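import Pool.Agent.MEY.Targets2
import Pool.Agent.MEZ.Targets5

/-!
# MEV: global sections of the multiplier over a region

The region of the logarithms of the multipliers is arbitrary (`Rgn`).
-/

set_option autoImplicit false

open Complex Filter Topology Set MeasureTheory
open Pool.Agent.Limb (F)
open Pool.Agent.PLim (Rho LocFix)
open Pool.Agent.MEX (LI Exa)
open Pool.Agent.MEY (Pt Sec Cen)

namespace Pool.Agent.MEV

/-- A region of logarithms of multipliers. -/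
structure Rgn (W : Set ℂ) : Prop where
  li : LI W
  per : ∀ (μ : ℂ) (m : ℤ), μ + 2 * Real.pi * I * m ∈ W ↔ μ ∈ W
  hp : ∀ μ : ℂ, μ.re < 0 → μ ∈ W

/-- Regularity of the points over the region. -/
def GODw (W : Set ℂ) : Prop := ∀ (n k : ℕ) (c z μ : ℂ), 2 ≤ n → 1 ≤ k → μ ∈ W →
  Pt n k c z (exp μ) → exp μ ≠ 1 ∧ ‖c‖ < 16 ∧ ∀ R : ℝ, 0 < R →
  ∃ (ε r : ℝ) (zf : ℂ → ℂ), ε ≤ R ∧ r ≤ R ∧ LocFix n k c z ε r zf ∧
    deriv (fun c => Rho n k c (zf c)) c ≠ 0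

/-- The preimage of the region. -/
def DW (n : ℕ) (W : Set ℂ) : Set ℂ := {w : ℂ | w = 0 ∨ ((n - 1 : ℕ) : ℂ) * log w ∈ W}

/-- Global sections over `DW n W`, at the centre `c`. -/
structure GlW (n k : ℕ) (W : Set ℂ) (c : ℂ) (Ψ X : ℂ → ℂ) : Prop where
  dΨ : DifferentiableOn ℂ Ψ (DW n W)
  dX : DifferentiableOn ℂ X (DW n W)
  zero : Ψ 0 = c
  X0 : X 0 = 0
  pt : ∀ w ∈ DW n W, Pt n k (Ψ w) (X w) (w ^ (n - 1))
  d : ∀ w ∈ DW n W, deriv Ψ w ≠ 0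

/-- The region of the final form of the multiplier extension theorem. -/
def Oz (κ : ℝ) : Set ℂ :=
  {μ : ℂ | μ.re < 0 ∨ ∃ δ : ℝ, 0 < δ ∧ Pool.Agent.MEZ.Fz δ μ.im ∧ μ.re < κ * δ ^ 2}

end Pool.Agent.MEV
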