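import Pool.Agent.MEV.GLB
import Pool.Agent.MEY.LIMBZ

/-!
# MEV: the limbs are in the images of the global sections
-/

set_option autoImplicit false

open Complex Filter Topology Set MeasureTheory
open Pool.Agent.Limb (F)
open Pool.Agent.PLim (Rho LocFix IsLimb OMXn)
open Pool.Agent.MEX (LI)
open Pool.Agent.MEY (Pt Sec)
open Pool.Agent.MEZ (Fz)

namespace Pool.Agent.MEV

/-- the small disc is in the region -/
lemma ball_oz {κ δ τ : ℝ} (hκ : 0 < κ) (hκ1 : κ ≤ 1) (hδ : 0 < δ)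
    (hF : Fz δ τ) {μ : ℂ} (hμ : μ ∈ Metric.ball ((τ : ℂ) * I) (κ * δ ^ 2 / 8)) : μ ∈ Oz κ := by
  have hh := Fz.half hF
  rw [Metric.mem_ball, dist_eq_norm] at hμ
  have him : |μ.im - τ| < κ * δ ^ 2 / 8 := by
    have h1 := Complex.abs_im_le_norm (μ - (τ : ℂ) * I)
    have h2 : (μ - (τ : ℂ) * I).im = μ.im - τ := by simp
    rw [h2] at h1
    linarith
  have hre : μ.re < κ * δ ^ 2 / 8 := by
    have h1 := Complex.abs_re_le_norm (μ - (τ : ℂ) * I)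
    have h2 : (μ - (τ : ℂ) * I).re = μ.re := by simp
    rw [h2] at h1
    have := le_abs_self μ.re
    linarith
  have hη0 : κ * δ ^ 2 ≤ δ := by
    have h1 : κ * δ ^ 2 ≤ 1 * δ ^ 2 := by gcongr
    have h2 : δ ^ 2 ≤ δ := by nlinarith
    linarith
  refine Or.inr ⟨δ / 2, by positivity, fz_near hF (by linarith), ?_⟩
  have h3 : 0 < κ * δ ^ 2 := by positivity
  nlinarith

theorem lim {κ : ℝ} (hκ : 0 < κ) (hκ1 : κ ≤ 1) (hGOD : GODw (Oz κ))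
    (hLZ : Pool.Agent.MEY.T_LIMBZ) : ∀ (n : ℕ) (C1 : ℝ), 2 ≤ n → 0 < C1 → OMXn n C1 →
    ∀ (k p q : ℕ) (c0 w0 : ℂ) (Ψ X : ℂ → ℂ) (A : Set ℂ) (δ : ℝ), 1 ≤ k →
    GlW n k (Oz κ) c0 Ψ X → w0 ^ (n - 1) = exp (2 * Real.pi * I * p / q) →
    IsLimb n k p q (Ψ w0) (X w0) A → 0 < δ → Fz δ (2 * Real.pi * p / q) →
    16 / κ * C1 * k < q * δ ^ 2 →
    ∀ c ∈ A, ∃ w ∈ DW n (Oz κ), Ψ w = c ∧ ‖w - w0‖ * (((n - 1 : ℕ) : ℝ) * q) ≤ 2 * (C1 * k) := by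
  intro n C1 hn hC1 hOMX k p q c0 w0 Ψ X A δ hk hG hw0 hL hδ hF hq c hc
  -- the numbers
  have hq0 : 0 < q := by have := hL.hpq; omega
  have hq0' : (0 : ℝ) < q := by exact_mod_cast hq0
  have hk' : (1 : ℝ) ≤ k := by exact_mod_cast hk
  have hn1 : 0 < n - 1 := by omega
  have hn1' : (1 : ℝ) ≤ ((n - 1 : ℕ) : ℝ) := by exact_mod_cast hn1
  have hn0 : ((n - 1 : ℕ) : ℂ) ≠ 0 := by
    have : (n - 1 : ℕ) ≠ 0 := by omega
    exact_mod_cast this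
  set τ : ℝ := 2 * Real.pi * p / q with hτ
  have hh := Fz.half hF
  set η : ℝ := κ * δ ^ 2 / 8 with hη
  have hη0 : 0 < η := by positivity
  have hη1 : η ≤ 1 / 4 := by
    have h1 : κ * δ ^ 2 ≤ 1 * δ ^ 2 := by gcongr
    have h2 : δ ^ 2 ≤ 1 := by nlinarith
    rw [hη]
    linarith
  have hC1k : 0 < C1 * k := by positivity
  have hsmall : 2 * (C1 * k / q) < η := by
    rw [hη, ← mul_div_assoc, div_lt_iff₀ hq0', div_mul_eq_mul_div, lt_div_iff₀ (by norm_num)]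
    rw [div_mul_eq_mul_div, div_mul_eq_mul_div, div_lt_iff₀ hκ] at hq
    nlinarith
  have hball : ∀ μ ∈ Metric.ball ((τ : ℂ) * I) η, μ ∈ Oz κ := fun μ hμ =>
    ball_oz hκ hκ1 hδ hF hμ
  obtain ⟨hop, -, hDb, hDe, hDx, hDr⟩ := ddo (oz_rgn hκ) n hn
  -- the section
  have hexpτ : exp ((τ : ℂ) * I) = exp (2 * Real.pi * I * p / q) := by
    congr 1
    rw [hτ]
    push_cast
    ring
  set E : ℂ → ℂ := fun μ => exp (μ / ((n - 1 : ℕ) : ℂ)) with hE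
  have hEp : ∀ μ, E μ ^ (n - 1) = exp μ := by
    intro μ
    simp only [hE]
    rw [← Complex.exp_nat_mul, mul_div_cancel₀ _ hn0]
  have hE0 : ∀ μ, E μ ≠ 0 := fun μ => Complex.exp_ne_zero _
  set ζ : ℂ := w0 / E ((τ : ℂ) * I) with hζ
  have hζw : ζ * E ((τ : ℂ) * I) = w0 := div_mul_cancel₀ _ (hE0 _)
  have hζ1 : ζ ^ (n - 1) = 1 := by
    rw [hζ, div_pow, hEp, hexpτ, hw0, div_self (Complex.exp_ne_zero _)]
  have hζn : ‖ζ‖ = 1 := by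
    have h1 : ‖ζ‖ ^ (n - 1) = 1 := by rw [← norm_pow, hζ1, norm_one]
    exact (pow_eq_one_iff_of_nonneg (norm_nonneg _) (by omega)).1 h1
  have hζ0 : ζ ≠ 0 := by
    intro h
    rw [h, norm_zero] at hζn
    exact zero_ne_one hζn
  have hmem : ∀ μ ∈ Oz κ, ζ * E μ ∈ DW n (Oz κ) := fun μ hμ =>
    (hDr _ _ hζ1).2 ((hDe μ).2 hμ)
  set ψ : ℂ → ℂ := fun μ => Ψ (ζ * E μ) with hψ
  set χ : ℂ → ℂ := fun μ => X (ζ * E μ) with hχ
  have hpt : ∀ μ ∈ Oz κ, Pt n k (ψ μ) (χ μ) (exp μ) := by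
    intro μ hμ
    have h1 := hG.pt _ (hmem μ hμ)
    rw [mul_pow, hζ1, one_mul, hEp] at h1
    exact h1
  have hEd : ∀ μ, HasDerivAt (fun μ => ζ * E μ) (ζ * (E μ * (1 / ((n - 1 : ℕ) : ℂ)))) μ := by
    intro μ
    have h1 : HasDerivAt (fun μ : ℂ => μ / ((n - 1 : ℕ) : ℂ)) (1 / ((n - 1 : ℕ) : ℂ)) μ :=
      (hasDerivAt_id μ).div_const _
    exact (h1.cexp).const_mul ζ
  have hψd : ∀ μ ∈ Oz κ, HasDerivAt ψ (deriv Ψ (ζ * E μ) *
      (ζ * (E μ * (1 / ((n - 1 : ℕ) : ℂ))))) μ := by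
    intro μ hμ
    have h1 : HasDerivAt Ψ (deriv Ψ (ζ * E μ)) (ζ * E μ) :=
      (hG.dΨ.differentiableAt (hop.mem_nhds (hmem μ hμ))).hasDerivAt
    exact h1.comp μ (hEd μ)
  have hχc : ∀ μ ∈ Oz κ, ContinuousAt χ μ := by
    intro μ hμ
    have h1 : ContinuousAt X (ζ * E μ) :=
      (hG.dX.differentiableAt (hop.mem_nhds (hmem μ hμ))).continuousAt
    exact ContinuousAt.comp (f := fun μ => ζ * E μ) (g := X) h1 (hEd μ).continuousAt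
  have hψ0 : ∀ μ ∈ Oz κ, deriv ψ μ ≠ 0 := by
    intro μ hμ
    rw [(hψd μ hμ).deriv]
    exact mul_ne_zero (hG.d _ (hmem μ hμ)) (mul_ne_zero hζ0 (mul_ne_zero (hE0 _)
      (one_div_ne_zero hn0)))
  have hψ16 : ∀ μ ∈ Oz κ, ‖ψ μ‖ ≤ 16 := fun μ hμ =>
    (hGOD n k _ _ μ hn hk hμ (hpt μ hμ)).2.1.le
  have hψr : ψ ((τ : ℂ) * I) = Ψ w0 := by
    simp only [hψ]
    rw [hζw]
  have hχr : χ ((τ : ℂ) * I) = X w0 := by
    simp only [hχ]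
    rw [hζw]
  obtain ⟨μ, hμ1, hμ2⟩ := hLZ n C1 hn hC1 hOMX k p q (Ψ w0) (X w0) A η ψ χ hL hη0 hη1 hsmall
    (fun ν hν => ((hψd ν (hball ν hν)).differentiableAt).differentiableWithinAt)
    (fun ν hν => (hχc ν (hball ν hν)).continuousWithinAt) hψr hχr
    (fun ν hν => ⟨hpt ν (hball ν hν), hψ16 ν (hball ν hν), hψ0 ν (hball ν hν)⟩) c hc
  have hμη : ‖μ - (τ : ℂ) * I‖ < η / 2 := by
    have : ‖μ - (τ : ℂ) * I‖ ≤ C1 * k / q := hμ1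
    linarith
  have hμB : μ ∈ Metric.ball ((τ : ℂ) * I) η := by
    rw [Metric.mem_ball, dist_eq_norm]
    linarith
  refine ⟨ζ * E μ, hmem μ (hball μ hμB), hμ2, ?_⟩
  · -- the distance in the disc
    have h1 : ζ * E μ - w0 = ζ * E ((τ : ℂ) * I) *
        (exp ((μ - (τ : ℂ) * I) / ((n - 1 : ℕ) : ℂ)) - 1) := by
      have h2 : E μ = E ((τ : ℂ) * I) * exp ((μ - (τ : ℂ) * I) / ((n - 1 : ℕ) : ℂ)) := by
        simp only [hE]
        rw [← Complex.exp_add]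
        congr 1
        ring
      rw [h2, ← hζw]
      ring
    have h3 : ‖E ((τ : ℂ) * I)‖ = 1 := by
      simp only [hE]
      rw [Complex.norm_exp]
      have : ((τ : ℂ) * I / ((n - 1 : ℕ) : ℂ)).re = 0 := by
        have e1 : (τ : ℂ) * I / ((n - 1 : ℕ) : ℂ) = ((τ / ((n - 1 : ℕ) : ℝ) : ℝ) : ℂ) * I := by
          push_cast
          ring
        rw [e1]
        simp
      rw [this, Real.exp_zero]
    have h4 : ‖(μ - (τ : ℂ) * I) / ((n - 1 : ℕ) : ℂ)‖ ≤ 1 := by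
      rw [norm_div, Complex.norm_natCast]
      rw [div_le_one (by linarith)]
      linarith
    have h5 := Complex.norm_exp_sub_one_le h4
    have h6 : ‖ζ * E μ - w0‖ ≤ 2 * (‖μ - (τ : ℂ) * I‖ / ((n - 1 : ℕ) : ℝ)) := by
      rw [h1, norm_mul, norm_mul, hζn, h3, one_mul, one_mul]
      rw [norm_div, Complex.norm_natCast] at h5
      exact h5
    have h7 : ‖μ - (τ : ℂ) * I‖ * q ≤ C1 * k := by
      have : ‖μ - (τ : ℂ) * I‖ ≤ C1 * k / q := hμ1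
      rwa [le_div_iff₀ hq0'] at this
    calc ‖ζ * E μ - w0‖ * (((n - 1 : ℕ) : ℝ) * q) ≤
          2 * (‖μ - (τ : ℂ) * I‖ / ((n - 1 : ℕ) : ℝ)) * (((n - 1 : ℕ) : ℝ) * q) := by gcongr
      _ = 2 * (‖μ - (τ : ℂ) * I‖ * q) := by field_simp
      _ ≤ 2 * (C1 * k) := by linarith

end Pool.Agent.MEV
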