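import Pool.Agent.MEV.CMP
import Pool.Agent.MEV.LIM
import Pool.Agent.MEY.CEN
import Pool.Agent.MEY.GLE
import Pool.Agent.MEY.SAME
import Pool.Agent.MEX.FINX

/-!
# MEV: the final theorem
-/

set_option autoImplicit false

open Complex Filter Topology Set MeasureTheory
open Pool.Agent.Limb (F)
open Pool.Agent.PLim (Rho LocFix IsLimb OMXn)
open Pool.Agent.MEX (LI)
open Pool.Agent.MEY (Pt Sec)
open Pool.Agent.MEZ (Fz NCZk T_NCZ)

namespace Pool.Agent.MEV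

lemma oz_mono {κ κ' : ℝ} (h : κ' ≤ κ) : Oz κ' ⊆ Oz κ := by
  rintro μ (hμ | ⟨δ, h1, h3, h4⟩)
  · exact Or.inl hμ
  · refine Or.inr ⟨δ, h1, h3, h4.trans_le ?_⟩
    exact mul_le_mul_of_nonneg_right h (sq_nonneg δ)

lemma dw_mono {n : ℕ} {W W' : Set ℂ} (h : W' ⊆ W) : DW n W' ⊆ DW n W := by
  rintro v (hv | hv)
  · exact Or.inl hv
  · exact Or.inr (h hv)

lemma glw_mono {n k : ℕ} {W W' : Set ℂ} {c : ℂ} {Ψ X : ℂ → ℂ} (h : W' ⊆ W)
    (hG : GlW n k W c Ψ X) : GlW n k W' c Ψ X :=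
  ⟨hG.dΨ.mono (dw_mono h), hG.dX.mono (dw_mono h), hG.zero, hG.X0,
    fun w hw => hG.pt w (dw_mono h hw), fun w hw => hG.d w (dw_mono h hw)⟩

lemma ncz_mono {κ κ' : ℝ} (h : κ' ≤ κ) (hN : NCZk κ) : NCZk κ' :=
  fun n k c0 z0 μ δ ε r zf h1 h2 h3 h4 h5 h6 h7 h8 => hN n k c0 z0 μ δ ε r zf h1 h2 h3 h4 h5 h6 h7
    (h8.trans_le (mul_le_mul_of_nonneg_right h (sq_nonneg δ)))

lemma god_mono {W W' : Set ℂ} (h : W' ⊆ W) (hG : GODw W) : GODw W' :=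
  fun n k c z μ h1 h2 h3 h4 => hG n k c z μ h1 h2 (h h3) h4

/-- The region of the multipliers. -/
def UZ (κ : ℝ) : Set ℂ := {w : ℂ | ‖w‖ < 1 + κ * w.arg ^ 2}

lemma fz_arg (w : ℂ) : Fz (|w.arg| / (2 * Real.pi)) w.arg := by
  intro m
  have hpi := Real.pi_pos
  have h1 : |w.arg| ≤ Real.pi := abs_arg_le_pi w
  have h2 : |w.arg / (2 * Real.pi)| = |w.arg| / (2 * Real.pi) := by
    rw [abs_div, abs_of_pos (by positivity : (0 : ℝ) < 2 * Real.pi)]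
  rw [← h2]
  have h3 : |w.arg / (2 * Real.pi)| ≤ 1 / 2 := by
    rw [h2, div_le_iff₀ (by positivity)]
    linarith
  by_cases hm : m = 0
  · rw [hm]
    simp
  · have h4 : (1 : ℝ) ≤ |(m : ℝ)| := by exact_mod_cast Int.one_le_abs hm
    have h5 := abs_sub_abs_le_abs_sub (m : ℝ) (w.arg / (2 * Real.pi))
    rw [abs_sub_comm] at h5
    linarith

lemma log_mem {κ : ℝ} {w : ℂ} (hw : w ≠ 0) (h : w ∈ UZ (κ / (4 * Real.pi ^ 2))) :
    log w ∈ Oz κ := by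
  have hpi := Real.pi_pos
  have h' : ‖w‖ < 1 + κ / (4 * Real.pi ^ 2) * w.arg ^ 2 := h
  have hw0 : 0 < ‖w‖ := norm_pos_iff.2 hw
  have h1 := Real.log_le_sub_one_of_pos hw0
  by_cases ha : w.arg = 0
  · left
    rw [ha] at h'
    rw [log_re]
    exact Real.log_neg hw0 (by simpa using h')
  · right
    refine ⟨|w.arg| / (2 * Real.pi), by positivity, ?_, ?_⟩
    · rw [log_im]
      exact fz_arg w
    · rw [log_re, div_pow, sq_abs]
      have e : κ * (w.arg ^ 2 / (2 * Real.pi) ^ 2) = κ / (4 * Real.pi ^ 2) * w.arg ^ 2 := by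
        field_simp
        ring
      rw [e]
      linarith

lemma mem_dw {n : ℕ} {κ : ℝ} (hκ : 0 < κ) {v : ℂ}
    (hv : v ^ (n - 1) ∈ UZ (κ / (4 * Real.pi ^ 2))) : v ∈ DW n (Oz κ) := by
  by_cases h0 : v = 0
  · exact Or.inl h0
  refine Or.inr ?_
  have h1 := log_mem (pow_ne_zero _ h0) hv
  have h2 : Complex.exp (((n - 1 : ℕ) : ℂ) * Complex.log v) =
      Complex.exp (Complex.log (v ^ (n - 1))) := by
    rw [Complex.exp_nat_mul, Complex.exp_log h0, Complex.exp_log (pow_ne_zero _ h0)]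
  rw [Complex.exp_eq_exp_iff_exists_int] at h2
  obtain ⟨m, hm⟩ := h2
  rw [hm]
  have h3 := ((oz_rgn hκ).per (Complex.log (v ^ (n - 1))) m).2 h1
  rwa [show Complex.log (v ^ (n - 1)) + m * (2 * Real.pi * Complex.I) =
    Complex.log (v ^ (n - 1)) + 2 * Real.pi * Complex.I * m by ring]

lemma exp_mem {κ : ℝ} {μ : ℂ} (hκ : 0 < κ) (hκ1 : κ ≤ 1) (hμ : μ ∈ Oz (κ / 2)) :
    Complex.exp μ ∈ UZ (κ / (4 * Real.pi ^ 2)) := by
  have hpi := Real.pi_pos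
  show ‖Complex.exp μ‖ < 1 + κ / (4 * Real.pi ^ 2) * (Complex.exp μ).arg ^ 2
  rw [Complex.norm_exp]
  rcases hμ with hμ | ⟨δ, hδ, hF, hμ⟩
  · have h1 : Real.exp μ.re < 1 := Real.exp_lt_one_iff.2 hμ
    have h2 : 0 ≤ κ / (4 * Real.pi ^ 2) * (Complex.exp μ).arg ^ 2 := by positivity
    linarith
  · have h1 : ∃ m : ℤ, (Complex.exp μ).arg = μ.im + 2 * Real.pi * m := by
      have h2 := Complex.exp_log (Complex.exp_ne_zero μ)
      rw [Complex.exp_eq_exp_iff_exists_int] at h2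
      obtain ⟨m, hm⟩ := h2
      refine ⟨m, ?_⟩
      have h3 := congrArg Complex.im hm
      rw [Complex.log_im] at h3
      rw [h3]
      simp
      ring
    obtain ⟨m, hm⟩ := h1
    have h2 := hF (-m)
    have h3 : μ.im / (2 * Real.pi) - ((-m : ℤ) : ℝ) = (Complex.exp μ).arg / (2 * Real.pi) := by
      rw [hm]
      push_cast
      field_simp
      ring
    rw [h3] at h2
    have h4 : δ ^ 2 ≤ ((Complex.exp μ).arg / (2 * Real.pi)) ^ 2 := by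
      rw [← sq_abs ((Complex.exp μ).arg / (2 * Real.pi))]
      exact pow_le_pow_left₀ hδ.le h2 2
    have hδ1 := Fz.half hF
    have h5 : δ ^ 2 ≤ 1 := by nlinarith
    have h6 : κ / 2 * δ ^ 2 ≤ 1 := by nlinarith
    have h7 : 0 ≤ κ / 2 * δ ^ 2 := by positivity
    have h8 := Real.abs_exp_sub_one_sub_id_le (x := κ / 2 * δ ^ 2)
      (by rw [abs_of_nonneg h7]; exact h6)
    have h9 := (abs_le.1 h8).2
    have h10 : Real.exp μ.re < Real.exp (κ / 2 * δ ^ 2) := Real.exp_lt_exp.2 hμ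
    have h11 : κ / (4 * Real.pi ^ 2) * (Complex.exp μ).arg ^ 2 =
        κ * ((Complex.exp μ).arg / (2 * Real.pi)) ^ 2 := by
      field_simp
      ring
    rw [h11]
    have h12 : κ * δ ^ 2 ≤ κ * ((Complex.exp μ).arg / (2 * Real.pi)) ^ 2 := by gcongr
    nlinarith

lemma dw_mem {n : ℕ} {κ : ℝ} (hn : 2 ≤ n) (hκ : 0 < κ) (hκ1 : κ ≤ 1) {v : ℂ}
    (hv : v ∈ DW n (Oz (κ / 2))) : v ^ (n - 1) ∈ UZ (κ / (4 * Real.pi ^ 2)) := by
  have hn1 : n - 1 ≠ 0 := by omega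
  have hz : (0 : ℂ) ^ (n - 1) ∈ UZ (κ / (4 * Real.pi ^ 2)) := by
    rw [zero_pow hn1]
    show ‖(0 : ℂ)‖ < 1 + κ / (4 * Real.pi ^ 2) * (0 : ℂ).arg ^ 2
    rw [norm_zero, arg_zero]
    norm_num
  rcases hv with hv | hv
  · rw [hv]
    exact hz
  · by_cases h0 : v = 0
    · rw [h0]
      exact hz
    · have h1 := exp_mem hκ hκ1 hv
      rw [Complex.exp_nat_mul, Complex.exp_log h0] at h1
      exact h1

/-- The final theorem. -/
theorem fin {κ : ℝ} (hκ : 0 < κ) (hκ1 : κ ≤ 1) (hN : NCZk κ) : ∃ C : ℝ, 0 < C ∧ ∀ n : ℕ, 2 ≤ n →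
    ∃ P X : ℕ → ℂ → ℂ → ℂ,
    (∀ (k : ℕ) (a : ℂ), 1 ≤ k → Pt n k a 0 0 → GlW n k (Oz κ) a (P k a) (X k a)) ∧
    (∀ (k : ℕ) (c z w : ℂ), 1 ≤ k → Pt n k c z w → w ∈ UZ (κ / (4 * Real.pi ^ 2)) →
      ∃ a v : ℂ, Pt n k a 0 0 ∧
      v ^ (n - 1) = w ∧ P k a v = c ∧ ∃ j : ℕ, (F n c)^[j] (X k a v) = z) ∧
    ∀ (k p q : ℕ) (r z0 : ℂ) (A : Set ℂ) (δ : ℝ), IsLimb n k p q r z0 A →
      Pt n k r z0 (exp (2 * Real.pi * I * p / q)) → 0 < δ → Fz δ (2 * Real.pi * p / q) →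
      C * Real.log n * k < q * δ ^ 2 → ∃ a v₀ : ℂ, Pt n k a 0 0 ∧
      v₀ ^ (n - 1) = exp (2 * Real.pi * I * p / q) ∧ P k a v₀ = r ∧
      ∀ c ∈ A, ∃ v : ℂ, v ^ (n - 1) ∈ UZ (κ / (4 * Real.pi ^ 2)) ∧ P k a v = c ∧
        ‖v - v₀‖ * (((n - 1 : ℕ) : ℝ) * q) ≤ C * Real.log n * k := by
  classical
  have hpi := Real.pi_pos
  have hG : GODw (Oz κ) := oz_god hκ hκ1 hN
  have hR : Rgn (Oz κ) := oz_rgn hκ
  have hG2 : GODw (Oz (κ / 2)) := god_mono (oz_mono (by linarith)) hG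
  have hLIC : Pool.Agent.MEY.T_LIC := Pool.Agent.MEY.p_LIC
  have hCEN : Pool.Agent.MEY.T_CEN := Pool.Agent.MEY.p_CEN Pool.Agent.MEY.p_GLE
  obtain ⟨a, ha, hO⟩ := Pool.Agent.MEX.FINX_.omx
  refine ⟨16 / (κ / 2) * a, by positivity, ?_⟩
  intro n hn
  have hPX : ∀ (k : ℕ) (a : ℂ), ∃ P : (ℂ → ℂ) × (ℂ → ℂ), 1 ≤ k → Pt n k a 0 0 →
      GlW n k (Oz κ) a P.1 P.2 := by
    intro k a
    by_cases h : 1 ≤ k ∧ Pt n k a 0 0
    · obtain ⟨Ψ, X, h1⟩ := glb hLIC hCEN hR hG n k a hn h.1 h.2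
      exact ⟨(Ψ, X), fun _ _ => h1⟩
    · exact ⟨(id, id), fun h1 h2 => absurd ⟨h1, h2⟩ h⟩
  choose P hP using hPX
  have hcov : ∀ (k : ℕ) (c z w : ℂ), 1 ≤ k → Pt n k c z w → w ∈ UZ (κ / (4 * Real.pi ^ 2)) →
      ∃ a v : ℂ, Pt n k a 0 0 ∧ v ^ (n - 1) = w ∧ (P k a).1 v = c ∧
        ∃ j : ℕ, (F n c)^[j] ((P k a).2 v) = z := by
    intro k c z w hk hz hw
    by_cases hw0 : w = 0
    · subst hw0
      obtain ⟨i, hi, hi0⟩ := Pool.Agent.MEY.CMP_.zero_mem hn hz.mul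
      have hc := Pool.Agent.MEY.CMP_.pt_iter hk hz hi.le
      rw [hi0] at hc
      have h1 := hP k c hk hc
      refine ⟨c, 0, hc, zero_pow (by omega), h1.zero, k - i, ?_⟩
      rw [h1.X0, ← hi0, ← Function.iterate_add_apply, show k - i + i = k by omega]
      exact hz.fix
    · have hz' : Pt n k c z (exp (log w)) := by rwa [exp_log hw0]
      obtain ⟨c0, hc0, hall⟩ := cmp hLIC hR hG n k c z (log w) hn hk (log_mem hw0 hw) hz'
      obtain ⟨v, hv, hv0, hvc, j, hj⟩ := hall _ _ (hP k c0 hk hc0)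
      have h1 := (hP k c0 hk hc0).pt v hv
      rw [hvc] at h1
      have h2 := Pool.Agent.MEY.SAME_.pt_iter hk h1 j
      rw [hj] at h2
      exact ⟨c0, v, hc0, by rw [← h2.mul, ← hz.mul], hvc, j, hj⟩
  refine ⟨fun k a => (P k a).1, fun k a => (P k a).2, ?_, hcov, ?_⟩
  · intro k a hk hak
    exact hP k a hk hak
  · intro k p q r z0 A δ hL hz hδ hF hlt
    have hk := hL.hk
    have hw : exp (2 * Real.pi * I * p / q) ∈ UZ (κ / (4 * Real.pi ^ 2)) := by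
      have e : (2 * Real.pi * I * p / q : ℂ) = ((2 * Real.pi * p / q : ℝ) : ℂ) * I := by
        push_cast
        ring
      refine exp_mem hκ hκ1 (Or.inr ⟨δ, hδ, ?_, ?_⟩)
      · rw [e]
        simpa using hF
      · rw [e]
        have : 0 < κ / 2 * δ ^ 2 := by positivity
        simpa using this
    obtain ⟨b, v₀, hb, hv₀w, hr, j, hj⟩ := hcov k r z0 _ hk hz hw
    refine ⟨b, v₀, hb, hv₀w, hr, ?_⟩
    have hGl := hP k b hk hb
    have hv₀ : v₀ ∈ DW n (Oz κ) := mem_dw hκ (by rw [hv₀w]; exact hw)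
    have hpt := hGl.pt v₀ hv₀
    have hfix := hpt.fix
    have hmul := hpt.mul
    rw [hv₀w] at hmul
    rw [hr] at hfix hmul
    have hL' : IsLimb n k p q ((P k b).1 v₀) ((P k b).2 v₀) A := by
      rw [hr]
      exact ⟨hL.hk, hL.hp, hL.hpq, hL.cop, hfix, hmul, hL.sub, hL.op, hL.cl, hL.nr, hL.n0⟩
    have hn2 : (2 : ℝ) ≤ n := by exact_mod_cast hn
    have hlog : 0 < Real.log n := Real.log_pos (by linarith)
    have e1 : 16 / (κ / 2) * (a * Real.log n) * k = 16 / (κ / 2) * a * Real.log n * k := by ring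
    intro c hc
    obtain ⟨v, hv, hvc, hvd⟩ := lim (κ := κ / 2) (by positivity) (by linarith) hG2
      Pool.Agent.MEY.p_LIMBZ n (a * Real.log n) hn (by positivity) (hO n hn) k p q b v₀ _ _ A δ hk
      (glw_mono (oz_mono (by linarith)) hGl) hv₀w hL' hδ hF (by rw [e1]; exact hlt) c hc
    refine ⟨v, dw_mem hn hκ hκ1 hv, hvc, hvd.trans ?_⟩
    rw [← e1]
    have h2 : (2 : ℝ) ≤ 16 / (κ / 2) := by
      rw [le_div_iff₀ (by positivity)]
      linarith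
    have h3 : 0 ≤ a * Real.log n * k := by positivity
    nlinarith

end Pool.Agent.MEV
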