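import Pool.Agent.MEV.OMG
import Pool.Agent.MEY.LIC
import Pool.Agent.MEX.SECX

/-!
# MEV: existence of sections of the multiplier over a region
-/

set_option autoImplicit false

open Complex Filter Topology Set MeasureTheory
open Pool.Agent.Limb (F)
open Pool.Agent.PLim (Rho LocFix)
open Pool.Agent.MEX (LI Exa)
open Pool.Agent.MEY (Pt Sec T_LIC)

namespace Pool.Agent.MEV

namespace LFT_

lemma ne_one {Ω : Set ℂ} (hG : GODw Ω) {μ : ℂ} (hμ : μ ∈ Ω) : exp μ ≠ 1 := by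
  obtain ⟨z, hz⟩ : ∃ z : ℂ, z = exp μ / 2 := ⟨_, rfl⟩
  refine (hG 2 1 (z - z ^ 2) z μ le_rfl le_rfl hμ ⟨?_, ?_, ?_⟩).1
  · rw [Function.iterate_one]
    unfold F
    ring
  · intro j h0 h1
    omega
  · unfold Rho
    rw [Function.iterate_one]
    have h : HasDerivAt (F 2 (z - z ^ 2)) (2 * z) z := by
      have h1 : HasDerivAt (fun x : ℂ => x ^ 2 + (z - z ^ 2))
          (((2 : ℕ) : ℂ) * z ^ (2 - 1)) z := (hasDerivAt_pow 2 z).add_const (z - z ^ 2)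
      exact h1.congr_deriv (by norm_num)
    rw [h.deriv, hz]
    ring

end LFT_

open LFT_ in
open Pool.Agent.MEX.SECX_ in
open Pool.Agent.PLim (CNT_contI CNT_contR CNT_diffR CNT_root p_LOCZ p_BIG) in
theorem lft (hLIC : T_LIC) {Ω : Set ℂ} (hΩ : Rgn Ω) (hG : GODw Ω) : ∀ (n k : ℕ) (c z μ0 : ℂ),
    2 ≤ n → 1 ≤ k → μ0 ∈ Ω → Pt n k c z (exp μ0) →
    ∃ ψ χ : ℂ → ℂ, Sec n k Ω ψ χ ∧ ψ μ0 = c ∧ χ μ0 = z := by
  intro n k r z0 μ0 hn hk hμ0 hP0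
  have hLI := hΩ.li
  obtain ⟨B, hB⟩ : ∃ B : Set ℂ, B = Ω := ⟨_, rfl⟩
  rw [← hB] at hLI hμ0 ⊢
  have hBne : ∀ μ ∈ B, exp μ ≠ 1 := fun μ hμ => (ne_one (Ω := Ω)) hG (by rw [← hB]; exact hμ)
  have hgood : ∀ c z μ : ℂ, μ ∈ B → (F n c)^[k] z = z → Rho n k c z = exp μ → Exa n k c z →
      ‖c‖ < 16 ∧ ∃ (δ' r' : ℝ) (zf : ℂ → ℂ), LocFix n k c z δ' r' zf ∧
        deriv (fun c => Rho n k c (zf c)) c ≠ 0 := by
    intro c z μ hμ hfix hRho hexa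
    obtain ⟨-, h1, h2⟩ := hG n k c z μ hn hk (by rw [← hB]; exact hμ) ⟨hfix, hexa, hRho⟩
    obtain ⟨δ', r', zf, -, -, hL, hd⟩ := h2 1 one_pos
    exact ⟨h1, δ', r', zf, hL, hd⟩
  -- the covering
  have hEc : CompactSpace (EX n k) := isCompact_iff_compactSpace.mp (EX_compact hn hk)
  have hloc : IsLocalHomeomorphOn (ff n k) (ff n k ⁻¹' (exp '' B)) := by
    rw [isLocalHomeomorphOn_iff_isOpenEmbedding_restrict]
    rintro x ⟨μ, hμ, hx⟩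
    have hex : Exa n k x.1.1 x.1.2 := EX_exact hn hk x.2 (by
      have : Rho n k x.1.1 x.1.2 = exp μ := hx.symm
      rw [this]
      exact hBne μ hμ)
    obtain ⟨h1, δ', r', zf, hL, hd⟩ := hgood x.1.1 x.1.2 μ hμ (EX_sub hn hk x.2).1 hx.symm hex
    exact ff_local hn hk x h1 hex hL hd
  have cov := IsCoveringMapOn.of_isLocalHomeomorphOn (ff_cont n k) hloc
  have hcontr : ContractibleSpace B := hLIC B hLI
  have hlpc : LocallyPathConnectedSpace B := hLI.op.locallyPathConnectedSpace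
  let fB : C(B, ℂ) := ⟨fun μ => exp μ.1, by fun_prop⟩
  obtain ⟨hz, hEx, hR⟩ := hP0
  have hr16 : ‖r‖ < 16 := (hgood r z0 _ hμ0 hz hR hEx).1
  obtain ⟨Fl, ⟨hF0, hF⟩, -⟩ := cov.existsUnique_continuousMap_lifts fB
    (a₀ := ⟨μ0, hμ0⟩) (e₀ := ⟨(r, z0), subset_closure ⟨⟨hz, hr16.le⟩, hEx⟩⟩) (by
      show Rho n k r z0 = exp μ0
      rw [hR]) (fun a => ⟨a.1, a.2, rfl⟩)
  classical
  set ψ : ℂ → ℂ := fun μ => if h : μ ∈ B then (Fl ⟨μ, h⟩).1.1 else 0 with hψ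
  set χ : ℂ → ℂ := fun μ => if h : μ ∈ B then (Fl ⟨μ, h⟩).1.2 else 0 with hχ
  have hψv : ∀ (μ : ℂ) (h : μ ∈ B), ψ μ = (Fl ⟨μ, h⟩).1.1 := fun μ h => by
    simp only [hψ, dif_pos h]
  have hχv : ∀ (μ : ℂ) (h : μ ∈ B), χ μ = (Fl ⟨μ, h⟩).1.2 := fun μ h => by
    simp only [hχ, dif_pos h]
  have hψc : ContinuousOn ψ B := by
    rw [continuousOn_iff_continuous_domRestrict]
    have : B.domRestrict ψ = fun μ : B => (Fl μ).1.1 := by
      funext μ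
      exact hψv μ.1 μ.2
    rw [this]
    exact continuous_fst.comp (continuous_subtype_val.comp Fl.continuous)
  have hχc : ContinuousOn χ B := by
    rw [continuousOn_iff_continuous_domRestrict]
    have : B.domRestrict χ = fun μ : B => (Fl μ).1.2 := by
      funext μ
      exact hχv μ.1 μ.2
    rw [this]
    exact continuous_snd.comp (continuous_subtype_val.comp Fl.continuous)
  have hfixμ : ∀ μ ∈ B, (F n (ψ μ))^[k] (χ μ) = χ μ ∧ Rho n k (ψ μ) (χ μ) = exp μ ∧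
      ‖ψ μ‖ ≤ 16 ∧ Exa n k (ψ μ) (χ μ) := by
    intro μ hμ
    rw [hψv μ hμ, hχv μ hμ]
    have hEE := EX_sub hn hk (Fl ⟨μ, hμ⟩).2
    have hRho : Rho n k (Fl ⟨μ, hμ⟩).1.1 (Fl ⟨μ, hμ⟩).1.2 = exp μ := congrFun hF ⟨μ, hμ⟩
    exact ⟨hEE.1, hRho, hEE.2, EX_exact hn hk (Fl ⟨μ, hμ⟩).2 (by
      rw [hRho]
      exact hBne μ hμ)⟩
  have hderiv : ∀ μ ∈ B, (∃ d : ℂ, d ≠ 0 ∧ HasDerivAt ψ d μ) ∧ DifferentiableAt ℂ χ μ := by
    intro μ hμ
    obtain ⟨h1, h2, h3, h4⟩ := hfixμ μ hμ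
    obtain ⟨-, δ', r', zf, hL, hd⟩ := hgood (ψ μ) (χ μ) μ hμ h1 h2 h4
    have hBn : B ∈ 𝓝 μ := hLI.op.mem_nhds hμ
    have hψa : ContinuousAt ψ μ := hψc.continuousAt hBn
    have hχa : ContinuousAt χ μ := hχc.continuousAt hBn
    set g : ℂ → ℂ := fun c => Rho n k c (zf c) with hg
    have hgd : DifferentiableOn ℂ g (Metric.ball (ψ μ) δ') := CNT_diffR n k zf _ hL.diff
    have hgh : HasDerivAt g (deriv g (ψ μ)) (ψ μ) :=
      (hgd.differentiableAt (Metric.ball_mem_nhds _ hL.hδ)).hasDerivAt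
    have hgμ : g (ψ μ) = exp μ := by
      show Rho n k (ψ μ) (zf (ψ μ)) = exp μ
      rw [hL.zf0, h2]
    have hf : HasDerivAt (fun c => log (g c / exp μ) + μ)
        (deriv g (ψ μ) / exp μ / (g (ψ μ) / exp μ)) (ψ μ) := by
      refine ((hgh.div_const (exp μ)).clog ?_).add_const μ
      rw [hgμ, div_self (exp_ne_zero _)]
      exact one_mem_slitPlane
    have hf' : deriv g (ψ μ) / exp μ / (g (ψ μ) / exp μ) ≠ 0 := by
      rw [hgμ, div_self (exp_ne_zero _), div_one]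
      exact div_ne_zero hd (exp_ne_zero _)
    have a1 : ∀ᶠ ν in 𝓝 μ, ψ ν ∈ Metric.ball (ψ μ) δ' :=
      hψa.eventually (Metric.ball_mem_nhds _ hL.hδ)
    have a2 : ∀ᶠ ν in 𝓝 μ, χ ν ∈ Metric.ball (χ μ) r' :=
      hχa.eventually (Metric.ball_mem_nhds _ hL.hr)
    have hzf : χ =ᶠ[𝓝 μ] fun ν => zf (ψ ν) := by
      filter_upwards [hBn, a1, a2] with ν b0 b1 b2
      exact hL.uniq (ψ ν) b1 (χ ν) b2 (hfixμ ν b0).1
    have hfg : ∀ᶠ ν in 𝓝 μ, (fun c => log (g c / exp μ) + μ) (ψ ν) = ν := by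
      have a3 : ∀ᶠ ν in 𝓝 μ, ν ∈ Metric.ball μ 1 := Metric.ball_mem_nhds _ one_pos
      filter_upwards [hBn, hzf, a3] with ν b0 b4 b3
      have b5 : g (ψ ν) = exp ν := by
        show Rho n k (ψ ν) (zf (ψ ν)) = exp ν
        rw [← b4]
        exact (hfixμ ν b0).2.1
      show log (g (ψ ν) / exp μ) + μ = ν
      rw [b5, ← exp_sub]
      rw [mem_ball_iff_norm] at b3
      have b6 := abs_lt.mp (lt_of_le_of_lt (abs_im_le_norm (ν - μ)) b3)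
      rw [log_exp (by linarith [Real.pi_gt_three]) (by linarith [Real.pi_gt_three])]
      ring
    have hψd := HasDerivAt.of_local_left_inverse hψa hf hf' hfg
    refine ⟨⟨_, inv_ne_zero hf', hψd⟩, ?_⟩
    refine DifferentiableAt.congr_of_eventuallyEq ?_ hzf
    exact (hL.diff.differentiableAt (Metric.ball_mem_nhds _ hL.hδ)).comp μ hψd.differentiableAt
  refine ⟨ψ, χ, ⟨?_, ?_, ?_, ?_, ?_⟩, ?_, ?_⟩
  · intro μ hμ
    obtain ⟨⟨d, -, hd⟩, -⟩ := hderiv μ hμ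
    exact hd.differentiableAt.differentiableWithinAt
  · intro μ hμ
    exact (hderiv μ hμ).2.differentiableWithinAt
  · intro μ hμ
    obtain ⟨h1, h2, h3, h4⟩ := hfixμ μ hμ
    exact ⟨h1, h4, h2⟩
  · intro μ hμ
    exact (hfixμ μ hμ).2.2.1
  · intro μ hμ
    obtain ⟨⟨d, hd0, hd⟩, -⟩ := hderiv μ hμ
    rw [hd.deriv]
    exact hd0
  · rw [hψv _ hμ0, hF0]
  · rw [hχv _ hμ0, hF0]

end Pool.Agent.MEV
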