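import Pool.Agent.MEV.Defs
import Pool.Agent.PLim.TRANS
import Pool.Agent.PLim.TRA
import Pool.Agent.PLim.TRL
import Pool.Agent.PLim.TRP
import Pool.Agent.PLim.TRI
import Pool.Agent.PLim.TRS
import Pool.Agent.PLim.LOCZ
import Pool.Agent.PLim.BIG
import Pool.Agent.MEY.GOD

/-!
# MEV: the region of the final form of the multiplier extension theorem
-/

set_option autoImplicit false

open Complex Filter Topology Set
open Pool.Agent.Limb (F)
open Pool.Agent.PLim (Rho LocFix p_LOCZ p_BIG)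
open Pool.Agent.MEX (LI Exa)
open Pool.Agent.MEY (Pt)
open Pool.Agent.MEZ (Fz NCZk)

namespace Pool.Agent.MEV

lemma Fz.half {δ τ : ℝ} (h : Fz δ τ) : δ ≤ 1 / 2 :=
  (h (round (τ / (2 * Real.pi)))).trans (abs_sub_round _)

lemma fz_near {δ δ1 τ x : ℝ} (h : Fz δ τ) (hx : |x - τ| ≤ δ - δ1) : Fz δ1 x := by
  intro m
  have hpi := Real.pi_gt_three
  have h1 := h m
  have h2 : τ / (2 * Real.pi) - m =
      (x / (2 * Real.pi) - m) - (x - τ) / (2 * Real.pi) := by
    field_simp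
    ring
  have h3 : |(x - τ) / (2 * Real.pi)| ≤ δ - δ1 := by
    rw [abs_div, abs_of_pos (by positivity : (0 : ℝ) < 2 * Real.pi), div_le_iff₀ (by positivity)]
    have h5 : 0 ≤ δ - δ1 := (abs_nonneg _).trans hx
    nlinarith
  rw [h2] at h1
  have h4 := abs_sub (x / (2 * Real.pi) - m) ((x - τ) / (2 * Real.pi))
  linarith

lemma fz_per {δ x : ℝ} (m : ℤ) (h : Fz δ x) : Fz δ (x + 2 * Real.pi * m) := by
  intro m'
  have h1 := h (m' - m)
  have hpi : (Real.pi : ℝ) ≠ 0 := Real.pi_ne_zero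
  have h2 : (x + 2 * Real.pi * m) / (2 * Real.pi) - m' =
      x / (2 * Real.pi) - ((m' - m : ℤ) : ℝ) := by
    push_cast
    field_simp
    ring
  rw [h2]
  exact h1

lemma oz_per {κ : ℝ} (μ : ℂ) (m : ℤ) (h : μ ∈ Oz κ) : μ + 2 * Real.pi * I * m ∈ Oz κ := by
  have hre : (μ + 2 * Real.pi * I * m).re = μ.re := by simp
  have him : (μ + 2 * Real.pi * I * m).im = μ.im + 2 * Real.pi * m := by simp
  rcases h with h | ⟨δ, h0, h2, h3⟩
  · exact Or.inl (by rw [hre]; exact h)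
  · refine Or.inr ⟨δ, h0, ?_, ?_⟩
    · rw [him]
      exact fz_per m h2
    · rw [hre]
      exact h3

theorem oz_rgn {κ : ℝ} (hκ : 0 < κ) : Rgn (Oz κ) := by
  refine ⟨⟨?_, ?_, ⟨0, fun ζ hζ => Or.inl hζ⟩⟩, ?_, fun μ hμ => Or.inl hμ⟩
  · rw [isOpen_iff_mem_nhds]
    intro μ hμ
    rcases hμ with h | ⟨δ, h0, h2, h3⟩
    · have : {ν : ℂ | ν.re < 0} ∈ 𝓝 μ :=
        (isOpen_lt Complex.continuous_re continuous_const).mem_nhds h
      filter_upwards [this] with ν hν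
      exact Or.inl hν
    · have e1 : ∀ᶠ x in 𝓝 δ, μ.re < κ * x ^ 2 := by
        have : ContinuousAt (fun x : ℝ => κ * x ^ 2) δ := by fun_prop
        exact this.eventually (lt_mem_nhds h3)
      have e2 : ∀ᶠ x in 𝓝[<] δ, μ.re < κ * x ^ 2 ∧ 0 < x ∧ x < δ := by
        filter_upwards [nhdsWithin_le_nhds e1, nhdsWithin_le_nhds (lt_mem_nhds h0),
          self_mem_nhdsWithin] with x hx1 hx2 hx3
        exact ⟨hx1, hx2, hx3⟩
      obtain ⟨δ1, hd1, hd2, hd3⟩ := e2.exists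
      have e3 : ∀ᶠ ν : ℂ in 𝓝 μ, ν.re < κ * δ1 ^ 2 :=
        (isOpen_lt Complex.continuous_re continuous_const).mem_nhds hd1
      have e4 : ∀ᶠ ν : ℂ in 𝓝 μ, |ν.im - μ.im| < δ - δ1 := by
        have hc : Continuous fun ν : ℂ => |ν.im - μ.im| := by fun_prop
        refine (isOpen_lt hc continuous_const).mem_nhds ?_
        simp only [mem_ofPred_eq, sub_self, abs_zero]
        linarith
      filter_upwards [e3, e4] with ν hν1 hν2
      exact Or.inr ⟨δ1, hd2, fz_near h2 hν2.le, hν1⟩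
  · intro ζ hζ s hs
    have hre : (ζ - s).re ≤ ζ.re := by simp [hs]
    have him : (ζ - s).im = ζ.im := by simp
    rcases hζ with h | ⟨δ, h0, h2, h3⟩
    · exact Or.inl (lt_of_le_of_lt hre h)
    · refine Or.inr ⟨δ, h0, ?_, lt_of_le_of_lt hre h3⟩
      rw [him]
      exact h2
  · intro μ m
    refine ⟨fun h => ?_, oz_per μ m⟩
    have h1 := oz_per _ (-m) h
    have h2 : μ + 2 * Real.pi * I * m + 2 * Real.pi * I * ((-m : ℤ) : ℂ) = μ := by
      push_cast
      ring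
    rwa [h2] at h1

lemma fz_ne {δ : ℝ} {μ : ℂ} (h0 : 0 < δ) (h : Fz δ μ.im) : exp μ ≠ 1 := by
  intro h1
  rw [Complex.exp_eq_one_iff] at h1
  obtain ⟨m, hm⟩ := h1
  have h2 : μ.im = 2 * Real.pi * m := by
    rw [hm]
    simp
    ring
  have h3 := h m
  have hpi := Real.pi_pos
  have h4 : μ.im / (2 * Real.pi) - m = 0 := by
    rw [h2]
    field_simp
    ring
  rw [h4, abs_zero] at h3
  linarith

open Pool.Agent.MEY.GOD_ in
theorem oz_god {κ : ℝ} (hκ : 0 < κ) (hκ1 : κ ≤ 1) (hNC : NCZk κ) : GODw (Oz κ) := by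
  intro n k c z μ hn hk hμ hz
  have hne : exp μ ≠ 1 := by
    rcases hμ with h | ⟨δ, h0, hF, hre⟩
    · exact exp_ne h
    · exact fz_ne h0 hF
  have hre1 : μ.re < 1 := by
    rcases hμ with h | ⟨δ, h0, hF, hre⟩
    · linarith [(show μ.re < 0 from h)]
    · have h1 := Fz.half hF
      have h5 : δ ^ 2 ≤ 1 / 4 := by nlinarith
      nlinarith
  refine ⟨hne, ?_, ?_⟩
  · by_contra hc
    have h1 := p_BIG n k c z hn hk (not_lt.1 hc) hz.fix
    rw [hz.mul, Complex.norm_exp, Real.exp_lt_exp] at h1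
    linarith
  · intro R hR
    obtain ⟨ε, r, zf, h1, h2, hL⟩ := p_LOCZ n k c z R hn hR hz.fix (by rw [hz.mul]; exact hne)
    refine ⟨ε, r, zf, h1, h2, hL, ?_⟩
    rcases hμ with h | ⟨δ, h0, hF, hre⟩
    · refine t_TRANS n k c z ε r zf hn hk hL ?_ ?_ ?_
      · rw [hz.mul]
        exact exp_ne_zero μ
      · rw [hz.mul]
        exact (exp_lt h).le
      · rw [hz.mul]
        exact hne
    · exact hNC n k c z μ δ ε r zf hn hk hL hz.exa hz.mul h0 hF hre

end Pool.Agent.MEV
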